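import Mathlib

/-! A q-congruence for Schur's q-Fibonacci polynomials modulo the square of `[5^a]_q`. -/

namespace Pool.Agent.Results.MP_5b3c88_nt.Full
open Finset Polynomial

set_option maxHeartbeats 400000

/-- Gaussian binomial coefficients, by the q-Pascal rule. -/
noncomputable def qb : ℕ → ℕ → ℤ[X]
  | _, 0 => 1
  | 0, _ + 1 => 0
  | n + 1, k + 1 => qb n k + X ^ (k + 1) * qb n (k + 1)

/-- Schur's q-Fibonacci polynomials. -/
noncomputable def F : ℕ → ℤ[X]
  | 0 => 0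
  | 1 => 1
  | n + 2 => F (n + 1) + X ^ (n + 1) * F n

/-- `q ^ (2 n ^ 2 + n)` times the sum over `k < n` of `q ^ (-2 k (k + 1)) [2 k, k] F (2 k + 1)`. -/
noncomputable def T (n : ℕ) : ℤ[X] := ∑ k ∈ range n, X ^ (2 * n ^ 2 + n - 2 * k * (k + 1)) * qb (2 * k) k * F (2 * k + 1)

theorem qb0 (n : ℕ) : qb n 0 = 1 := by cases n <;> rfl

theorem qb_out (n : ℕ) : ∀ k, n < k → qb n k = 0 := by
  induction n with
  | zero => rintro (_ | k) h; exacts [absurd h (by omega), rfl]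
  | succ n ih => rintro (_ | k) h; exacts [absurd h (by omega), by rw [qb, ih _ (by omega), ih _ (by omega)]; simp]

theorem ratio (N : ℕ) : ∀ k, X ^ k * (1 - X ^ (k + 1)) * qb N (k + 1) = (X ^ k - X ^ N) * qb N k := by
  induction N with
  | zero => rintro (_ | k) <;> simp [qb]
  | succ N ih =>
    rintro (_ | k)
    · have := ih 0
      rw [qb0] at this
      rw [qb0, show qb (N + 1) (0 + 1) = qb N 0 + X ^ (0 + 1) * qb N (0 + 1) from rfl, qb0]
      linear_combination X * this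
    · rw [qb, qb]
      linear_combination X ^ (k + 2) * ih (k + 1) + X * ih k

theorem xc {c : ℕ} {a b : ℤ[X]} (h : X ^ c * a = X ^ c * b) : a = b := mul_left_cancel₀ (pow_ne_zero _ X_ne_zero) h

theorem rr (n j : ℕ) : X ^ j * (1 - X ^ (n + j + 1)) * qb (2 * n) (n + j + 1) = (X ^ j - X ^ n) * qb (2 * n) (n + j) :=
  xc (c := n) (by linear_combination ratio (2 * n) (n + j))

theorem pp (n k : ℕ) : qb (2 * (n + 1)) (k + 2) = qb (2 * n) k + X ^ (k + 1) * (1 + X) * qb (2 * n) (k + 1) +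
    X ^ (2 * k + 4) * qb (2 * n) (k + 2) := by
  rw [show 2 * (n + 1) = 2 * n + 1 + 1 from rfl, qb, qb, qb]
  ring

theorem i1 (n j : ℕ) : -qb (2 * (n + 1)) (n + j + 2) + X ^ (2 * j + 3) * qb (2 * (n + 1)) (n + j + 3) =
    X ^ (2 * n) * (-qb (2 * n) (n + j + 1) + X ^ (2 * j + 3) * qb (2 * n) (n + j + 2)) -
      (qb (2 * n) (n + j) - X ^ (2 * j + 3) * qb (2 * n) (n + j + 3)) := by
  have h1 := rr n (j + 1)
  have h2 := rr n (j + 2)
  rw [pp, pp n (n + j + 1)]
  simp only [← add_assoc] at *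
  linear_combination -(X ^ (j + 2) - X ^ n) * h1 - X ^ (j + 1) * (1 + X ^ (n + j + 3)) * h2

theorem mx (n j : ℕ) : X ^ (j + 1) * qb (2 * (n + 1)) (n + j + 2) = X ^ (n + 2 * j + 3) * qb (2 * n) (n + j + 2) +
    X ^ (j + 1) * (1 + X ^ (2 * n + 1)) * qb (2 * n) (n + j + 1) + X ^ (n + 1) * qb (2 * n) (n + j) := by
  have h1 := rr n j
  have h2 := rr n (j + 1)
  rw [pp]
  simp only [← add_assoc] at *
  linear_combination -X * h1 - X ^ (n + j + 2) * h2

theorem i2 (n i : ℕ) : X ^ i * (-qb (2 * (n + 1)) (n + i + 3) + X ^ (2 * i + 5) * qb (2 * (n + 1)) (n + i + 4) +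
    (qb (2 * (n + 1)) (n + i + 2) - X ^ (2 * i + 5) * qb (2 * (n + 1)) (n + i + 5)) -
      X ^ (2 * n + 1) * (qb (2 * n) (n + i + 1) - X ^ (2 * i + 5) * qb (2 * n) (n + i + 4))) =
    X ^ n * qb (2 * n) (n + i) - X ^ (n + 4 * i + 10) * qb (2 * n) (n + i + 5) := by
  have h1 := i1 n (i + 1)
  have h2 := rr n (i + 2)
  have h3 := mx n i
  have h4 := mx n (i + 3)
  simp only [← add_assoc] at *
  refine xc (c := 1) ?_
  linear_combination X ^ (i + 1) * h1 - X ^ (i + 1 + n) * h2 + h3 - X ^ (2 * i + 2) * h4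

noncomputable def A (L n : ℕ) : ℤ[X] := ∑ l ∈ range L, X ^ (10 * l ^ 2) * (X ^ (5 * l) *
  (-qb (2 * n) (n + 5 * l + 2) + X ^ (2 * (5 * l) + 5) * qb (2 * n) (n + 5 * l + 3)))

noncomputable def B (L n : ℕ) : ℤ[X] := ∑ l ∈ range L, X ^ (10 * l ^ 2) * (X ^ (5 * l) *
  (qb (2 * n) (n + 5 * l + 1) - X ^ (2 * (5 * l) + 5) * qb (2 * n) (n + 5 * l + 4)))

theorem r1 (L n : ℕ) : A L (n + 1) = X ^ (2 * n) * A L n - B L n := by
  rw [A, A, B, mul_sum, ← sum_sub_distrib]
  refine sum_congr rfl fun l _ => ?_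
  have := i1 n (5 * l + 1)
  simp only [add_right_comm n 1, ← add_assoc] at *
  linear_combination X ^ (10 * l ^ 2) * X ^ (5 * l) * this

theorem r2 (L n : ℕ) : A L (n + 1) + B L (n + 1) - X ^ (2 * n + 1) * B L n =
    X ^ n * qb (2 * n) n - X ^ (n + 10 * L ^ 2) * qb (2 * n) (n + 5 * L) := by
  induction L with
  | zero => simp [A, B]
  | succ L ih =>
    have := i2 n (5 * L)
    simp only [A, B, sum_range_succ, add_right_comm n 1, mul_add 5, ← add_assoc] at *
    linear_combination ih + X ^ (10 * L ^ 2) * this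

theorem TAB (L n : ℕ) (h : n ≤ L) :
    T n = X ^ (2 * n + 1) * A L n * F (2 * n) + X * B L n * (F (2 * n + 1) - F (2 * n)) := by
  induction n with
  | zero => simp [T, A, B, F, qb]
  | succ n ih =>
    have h1 : T (n + 1) = X ^ (4 * n + 3) * T n + X ^ (3 * n + 3) * qb (2 * n) n * F (2 * n + 1) := by
      rw [T, T, sum_range_succ, mul_sum, show 2 * (n + 1) ^ 2 + (n + 1) - 2 * n * (n + 1) = 3 * n + 3 from
        Nat.sub_eq_of_eq_add (by ring)]
      refine congrArg (· + _) (sum_congr rfl fun k hk => ?_)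
      have : 2 * k * (k + 1) ≤ 2 * n ^ 2 + n := by nlinarith [mem_range.mp hk]
      rw [← mul_assoc, ← mul_assoc, ← pow_add, ← Nat.add_sub_assoc this,
        show 4 * n + 3 + (2 * n ^ 2 + n) = 2 * (n + 1) ^ 2 + (n + 1) by ring]
    have h2 := r2 L n
    rw [qb_out _ (n + 5 * L) (by omega)] at h2
    rw [h1, ih (by omega), show F (2 * (n + 1) + 1) = F (2 * (n + 1)) + X ^ (2 * n + 2) * F (2 * n + 1) from rfl,
      show F (2 * (n + 1)) = F (2 * n + 1) + X ^ (2 * n + 1) * F (2 * n) from rfl]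
    linear_combination -X ^ (2 * n + 3) * F (2 * n + 1) * h2 - X ^ (4 * n + 4) * F (2 * n) * r1 L n

section
variable {d : ℕ} (hd : 0 < d)
include hd

theorem ndv (c : ℕ) {i : ℕ} (h : ¬d ∣ i) : ¬cyclotomic d ℤ ∣ X ^ c * (1 - X ^ i) := by
  rintro ⟨Y, e⟩
  have z := Complex.isPrimitiveRoot_exp d hd.ne'
  have := congrArg (aeval (Complex.exp (2 * Real.pi * Complex.I / d))) e
  rw [map_mul, map_mul, cyclotomic_eq_minpoly z hd, minpoly.aeval, zero_mul, map_pow, map_sub, map_pow, aeval_X, map_one,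
    mul_eq_zero, sub_eq_zero, eq_comm (a := 1), z.pow_eq_one_iff_dvd] at this
  exact this.elim (pow_ne_zero _ (Complex.exp_ne_zero _)) h

omit hd in
theorem ee (a c : ℕ) : cyclotomic d ℤ ∣ X ^ (a + d * c) - X ^ a := by
  rw [pow_add, ← mul_sub_one, pow_mul]
  exact ((cyclotomic.dvd_X_pow_sub_one d ℤ).trans (sub_one_dvd_pow_sub_one _ _)).mul_left _

theorem one {M k : ℕ} (h : ¬d ∣ k) : cyclotomic d ℤ ∣ qb (d * M) k := by
  obtain ⟨k, rfl⟩ : ∃ j, k = j + 1 := ⟨k - 1, by rcases k with _ | k <;> simp_all⟩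
  have h1 := ee (d := d) 0 M
  rcases e : d * M with _ | N
  · simp [qb]
  · refine ((cyclotomic.irreducible hd).prime.dvd_or_dvd ?_).resolve_left (ndv hd k h)
    rw [zero_add, e] at h1
    rw [qb, show X ^ k * (1 - X ^ (k + 1)) * (qb N k + X ^ (k + 1) * qb N (k + 1)) =
      (X ^ (N + 1) - X ^ 0) * (-X ^ k * qb N k) by linear_combination X ^ (k + 1) * ratio N k]
    exact h1.mul_right _

theorem sym (M t v : ℕ) : ∀ a b, b = a + 2 * v + 1 → a + b = d * (2 * t + 1) → d * t < a →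
    cyclotomic d ℤ ^ 2 ∣ qb (d * M) a - qb (d * M) b := by
  have nd : ∀ x, d * t < x → x < d * (t + 1) → ¬d ∣ x := by
    rintro _ h1 h2 ⟨c, rfl⟩
    have := lt_of_mul_lt_mul_left h1 hd.le
    have := lt_of_mul_lt_mul_left h2 hd.le
    omega
  have p := (cyclotomic.irreducible hd).prime
  have e1 : d * (2 * t + 1) = d * t + d * (t + 1) := by ring
  have e0 := ee (d := d) 0 M
  induction v with
  | zero =>
    rintro a _ rfl h1 h2
    refine p.pow_dvd_of_dvd_mul_left 2 (ndv hd a (nd (a + 1) (by omega) (by omega))) ?_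
    have e := ee (d := d) 0 (2 * t + 1)
    rw [← h1] at e
    rw [show X ^ a * (1 - X ^ (a + 1)) * (qb (d * M) a - qb (d * M) (a + 2 * 0 + 1)) = (X ^ (0 + d * M) - X ^ 0 -
      (X ^ (0 + (a + (a + 2 * 0 + 1))) - X ^ 0)) * qb (d * M) a by linear_combination -ratio (d * M) a, sq]
    exact mul_dvd_mul (e0.sub e) (one hd (nd a h2 (by omega)))
  | succ v ih =>
    rintro a _ rfl h1 h2
    have h3 := ih (a + 1) (a + 2 * v + 2) (by omega) (by omega) (by omega)
    rw [show a + 2 * (v + 1) + 1 = a + 2 * v + 2 + 1 by ring] at *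
    have h4 : a + 1 < a + 2 * v + 2 := by omega
    generalize a + 2 * v + 2 = b at *
    refine p.pow_dvd_of_dvd_mul_left 2 (ndv hd b (nd (b + 1) (by omega) (by omega))) ?_
    have e := ee (d := d) b (2 * t + 1)
    have e' := ee (d := d) 0 (2 * t + 1)
    rw [← h1] at e e'
    rw [show X ^ b * (1 - X ^ (b + 1)) * (qb (d * M) a - qb (d * M) (b + 1)) = (X ^ (2 * b + 1 + d * M) - X ^ (2 * b + 1) -
      (X ^ (b + (a + (b + 1))) - X ^ b)) * qb (d * M) a + X ^ (2 * b + 1 + a) * (1 - X ^ (a + 1)) *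
      (qb (d * M) (a + 1) - qb (d * M) b) + (X ^ (b + (a + (b + 1))) - X ^ b + (X ^ (0 + d * M) - X ^ 0) -
      (X ^ (0 + (a + (b + 1))) - X ^ 0) * (X ^ (a + b + 1) + 1)) * qb (d * M) b by
        linear_combination -ratio (d * M) b - X ^ (2 * b + 1) * ratio (d * M) a]
    rw [sq] at h3 ⊢
    exact ((mul_dvd_mul ((ee _ _).sub e) (one hd (nd a h2 (by omega)))).add (h3.mul_left _)).add
      (mul_dvd_mul ((e.add e0).sub (e'.mul_right _)) (one hd (nd b (by omega) (by omega))))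

theorem pair (ho : d % 2 = 1) {M t a b x y : ℕ} (h1 : a + b = d * (2 * t + 1)) (h2 : d * t < a) (h3 : d * t < b)
    (h5 : (d : ℤ) ∣ y - x) :
    cyclotomic d ℤ ^ 2 ∣ X ^ x * qb (d * M) a - X ^ y * qb (d * M) b := by
  have o : (a + b) % 2 = 1 := by rw [h1, Nat.mul_mod, ho]; omega
  have s : cyclotomic d ℤ ^ 2 ∣ qb (d * M) a - qb (d * M) b := by
    rcases le_total a b with h | h
    · exact sym hd M t ((b - a) / 2) a b (by omega) h1 h2
    · exact dvd_sub_comm.mp (sym hd M t ((a - b) / 2) b a (by omega) (by omega) h3)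
  have e : cyclotomic d ℤ ∣ X ^ x - X ^ y := by
    have h6 := Nat.modEq_iff_dvd.mpr h5
    rcases le_total x y with h | h
    · obtain ⟨c, rfl⟩ := (Nat.modEq_iff_exists_eq_add h).mp h6
      exact dvd_sub_comm.mp (ee _ _)
    · obtain ⟨c, rfl⟩ := (Nat.modEq_iff_exists_eq_add h).mp h6.symm
      exact ee _ _
  have n : ¬d ∣ b := by
    rintro ⟨c, rfl⟩
    have e1 : d * (2 * t + 1) = d * t + d * (t + 1) := by ring
    have := lt_of_mul_lt_mul_left h3 hd.le
    have := lt_of_mul_lt_mul_left (by omega : d * c < d * (t + 1)) hd.le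
    omega
  rw [show X ^ x * qb (d * M) a - X ^ y * qb (d * M) b = X ^ x * (qb (d * M) a - qb (d * M) b) +
    (X ^ x - X ^ y) * qb (d * M) b by ring]
  rw [sq] at s ⊢
  exact (s.mul_left _).add (mul_dvd_mul e (one hd n))

end

theorem blocks {P : ℤ[X]} {e : ℕ} (f h : ℕ → ℤ[X]) (H : ∀ s l l', l + l' + 1 = e * (2 * s + 1) → e * s ≤ l → e * s ≤ l' →
    P ∣ f l - h l') (M : ℕ) : P ∣ ∑ l ∈ range (e * M), (f l - h l) := by
  induction M with
  | zero => simp
  | succ M ih =>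
    rw [Nat.mul_succ, sum_range_add]
    refine ih.add ?_
    rw [sum_sub_distrib, ← sum_range_reflect fun u => h (e * M + u), ← sum_sub_distrib]
    refine dvd_sum fun u hu => H M _ _ ?_ (by omega) (by omega)
    have := mem_range.mp hu
    have : e * (2 * M + 1) = e * M + e * M + e := by ring
    omega

theorem phiT {e : ℕ} (ho : e % 2 = 1) (m : ℕ) : cyclotomic (5 * e) ℤ ^ 2 ∣ T (5 * e * m) := by
  have k : ∀ i j, i + j = 5 → 0 < i → 0 < j → cyclotomic (5 * e) ℤ ^ 2 ∣ ∑ l ∈ range (e * (5 * m)),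
      (X ^ (10 * l ^ 2 + 5 * l) * qb (5 * e * (2 * m)) (5 * e * m + 5 * l + i) -
        X ^ (10 * l ^ 2 + 15 * l + 5) * qb (5 * e * (2 * m)) (5 * e * m + 5 * l + j)) := fun i j h hi hj => by
    refine blocks _ _ (fun s l l' h1 h2 h3 => pair (t := m + s) (by omega) (by omega) ?_ ?_ ?_ ?_) _
    · linear_combination 5 * h1 + h
    · nlinarith
    · nlinarith
    · refine ⟨(2 * s + 1) * (2 * l' + 1 - 2 * l), ?_⟩
      have := congrArg (Nat.cast : ℕ → ℤ) h1
      push_cast at this ⊢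
      linear_combination 5 * (2 * l' + 1 - 2 * l) * this
  rw [show e * (5 * m) = 5 * e * m by ring, show 5 * e * (2 * m) = 2 * (5 * e * m) by ring] at k
  generalize 5 * e * m = n at *
  have hA : cyclotomic (5 * e) ℤ ^ 2 ∣ A n n := by
    convert (dvd_neg.mpr (k 2 3 rfl two_pos three_pos)) using 1
    rw [A, ← sum_neg_distrib]
    exact sum_congr rfl fun l _ => by ring
  have hB : cyclotomic (5 * e) ℤ ^ 2 ∣ B n n := by
    convert k 1 4 rfl one_pos four_pos using 1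
    exact sum_congr rfl fun l _ => by ring
  rw [TAB n n le_rfl]
  exact ((hA.mul_left _).mul_right _).add ((hB.mul_left _).mul_right _)

theorem result (a m : ℕ) : (∑ k ∈ range (5 ^ a), (X : ℤ[X]) ^ k) ^ 2 ∣ T (5 ^ a * m) := by
  haveI : Fact (Nat.Prime 5) := ⟨by norm_num⟩
  induction a generalizing m with
  | zero => simp
  | succ a ih =>
    obtain ⟨Y, hY⟩ := ih (5 * m)
    have h := phiT (e := 5 ^ a) (by rw [Nat.pow_mod]; simp) m
    rw [← pow_succ'] at h
    rw [← mul_assoc, ← pow_succ] at hY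
    have g := geom_sum_mul (X : ℤ[X]) (5 ^ a)
    have e : ∑ k ∈ range (5 ^ (a + 1)), (X : ℤ[X]) ^ k = (∑ k ∈ range (5 ^ a), X ^ k) * cyclotomic (5 ^ (a + 1)) ℤ :=
      mul_right_cancel₀ (X_sub_C_ne_zero (1 : ℤ)) (by
        rw [map_one, geom_sum_mul, ← cyclotomic_prime_pow_mul_X_pow_sub_one, ← g]; ring)
    have p := (cyclotomic.irreducible (by positivity : 0 < 5 ^ (a + 1))).prime
    rw [hY] at h ⊢
    rw [e, mul_pow]
    refine mul_dvd_mul_left _ (p.pow_dvd_of_dvd_mul_left 2 (fun h1 => ?_) h)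
    refine ndv (by positivity : 0 < 5 ^ (a + 1)) 0 (i := 5 ^ a) (fun h2 => ?_) ?_
    · exact absurd ((Nat.pow_dvd_pow_iff_le_right (by norm_num)).mp h2) (by omega)
    · rw [pow_zero, one_mul, ← neg_sub, ← g, dvd_neg]
      exact (p.dvd_of_dvd_pow h1).mul_right _

end Pool.Agent.Results.MP_5b3c88_nt.Full
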